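import Mathlib
import Pool.Agent.R838.KS.Stm
import Pool.Agent.R838.KS.BlowC
import Pool.Agent.U958.KS.BC
import Pool.Agent.U61.KS.FIB
import Pool.Agent.U770.KS.ZD
import Pool.Agent.U411.KS.CPT
import Pool.Agent.U780.KS.GEC
import Pool.Agent.U394.KS.ASM

set_option autoImplicit false

/-!
# Every non-smooth aperiodic countable Borel equivalence relation has a minimal `K_σ` realization

By the Glimm-Effros dichotomy `E_0` embeds in `E` continuously; the invariant hull of the image is
a disjoint union of copies `θ i '' P i` of clopen sets `P i` of `ℕ → Bool`. The rest `X'` of the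
space is partitioned into complete sections `X_n` with finite-to-one Borel maps `X_0 → X_n` inside
the classes, `X_n` has a zero-dimensional Polish topology with generating involutions continuous
and a compactification with countable remainder, and the fibre over the `n`-th point `w n` of the
countable dense `E_0` class of `⊔ P i` is blown up to a compact set `C_n` which consists of `X_n`
and countably many points of one further class. The blown up space is locally compact; the
relation is the union of the closures, in compact sets, of countably many pieces, and these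
closures contain no new pairs as there is a compact set of sequences of equivalent points,
one in every fibre, which accumulate at the fibres simultaneously.
-/

namespace Pool.Agent.Results.MP_daea50_lc.MinimalKSigma

open Pool.Agent.R838.KS

universe u

/-- the statement for `Type` -/
theorem main : S_MAIN :=
  U394.KS.t_ASM U780.KS.GEC.t_GEC
    (U61.KS.t_FIB U958.KS.BC.t_BC U770.KS.t_ZD U411.KS.t_CPT) t_BLOW

/-- Every non-smooth aperiodic countable Borel equivalence relation `E` on a standard Borel space
`X` is Borel isomorphic to an equivalence relation on a Polish space `Y` which is a countable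
union of compact sets of `Y × Y` and all of whose classes are dense. -/
theorem result {X : Type u} [MeasurableSpace X] [StandardBorelSpace X]
    (E : X → X → Prop) (hE : Equivalence E) (hm : MeasurableSet {p : X × X | E p.1 p.2})
    (hc : ∀ x, {y | E x y}.Countable) (ha : ∀ x, {y | E x y}.Infinite)
    (hs : ¬ ∃ T : Set X, MeasurableSet T ∧ ∀ x, ∃! y, y ∈ T ∧ E x y) :
    ∃ (Y : Type) (_ : TopologicalSpace Y) (_ : PolishSpace Y) (_ : MeasurableSpace Y)
      (_ : BorelSpace Y) (f : X ≃ᵐ Y),
      (∃ K : ℕ → Set (Y × Y), (∀ n, IsCompact (K n)) ∧
        {p : Y × Y | E (f.symm p.1) (f.symm p.2)} = ⋃ n, K n) ∧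
      ∀ y, Dense {z | E (f.symm y) (f.symm z)} := by
  obtain ⟨e, he⟩ := MeasureTheory.exists_measurableEmbedding_real X
  have hR : StandardBorelSpace (Set.range e) := he.measurableSet_range.standardBorel
  let g : X ≃ᵐ Set.range e := he.equivRange
  have h := main (Set.range e) (fun a b => E (g.symm a) (g.symm b))
    ⟨fun a => hE.refl _, fun h => hE.symm h, fun h h' => hE.trans h h'⟩
    (by
      have h1 : Measurable (fun p : Set.range e × Set.range e => (g.symm p.1, g.symm p.2)) :=
        (g.symm.measurable.comp measurable_fst).prodMk (g.symm.measurable.comp measurable_snd)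
      exact h1 hm)
    (by
      intro a
      have h1 : {b | E (g.symm a) (g.symm b)} = g.symm ⁻¹' {y | E (g.symm a) y} := rfl
      rw [h1]
      exact (hc _).preimage g.symm.injective)
    (by
      intro a
      have h1 : {b | E (g.symm a) (g.symm b)} = g.symm ⁻¹' {y | E (g.symm a) y} := rfl
      rw [h1]
      exact (ha _).preimage (by rw [Set.range_eq_univ.2 g.symm.surjective]; exact Set.subset_univ _))
    (by
      rintro ⟨T, hT, hTx⟩
      refine hs ⟨g ⁻¹' T, g.measurable hT, fun x => ?_⟩
      obtain ⟨b, ⟨hb1, hb2⟩, hb3⟩ := hTx (g x)
      refine ⟨g.symm b, ⟨?_, ?_⟩, ?_⟩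
      · show g (g.symm b) ∈ T
        rw [MeasurableEquiv.apply_symm_apply]
        exact hb1
      · have := hb2
        rw [MeasurableEquiv.symm_apply_apply] at this
        exact this
      · rintro y ⟨hy1, hy2⟩
        have h2 := hb3 (g y) ⟨hy1, by
          show E (g.symm (g x)) (g.symm (g y))
          rw [MeasurableEquiv.symm_apply_apply, MeasurableEquiv.symm_apply_apply]
          exact hy2⟩
        rw [← h2, MeasurableEquiv.symm_apply_apply])
  obtain ⟨Y, i1, i2, i3, i4, f, h1, h2⟩ := h
  exact ⟨Y, i1, i2, i3, i4, g.trans f, h1, fun y => h2 y⟩

end Pool.Agent.Results.MP_daea50_lc.MinimalKSigma
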